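import Pool.Agent.Helper38.RS.Goals3
import Pool.Agent.Helper51.RP.Defs

/-!
# Project RSP (MP_fc6b1e_nt), analytic part for characters of prime order `p`

The goals of `Pool.Agent.Helper38.RS.Goals3` which do not depend on `p` are reused.
-/

namespace Pool.Agent.Helper38.RSP

open NumberField Polynomial Module IsDedekindDomain Pool.Agent.Helper51.RP
open Pool.Agent.Helper38.RS (pz gs hf Gf absN)

/-- A nontrivial complex ray class character modulo `𝔪` (no condition at the infinite places),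
extended by zero. -/
structure IsCh {F : Type} [Field F] [NumberField F] (𝔪 : Ideal (𝓞 F)) (χ : Ideal (𝓞 F) → ℂ) :
    Prop where
  ne : 𝔪 ≠ ⊥
  zero : χ ⊥ = 0
  mul : ∀ I J, χ (I * J) = χ I * χ J
  cop : ∀ I, I ≠ ⊥ → I ⊔ 𝔪 = ⊤ → ‖χ I‖ = 1
  ncop : ∀ I, I ≠ ⊥ → I ⊔ 𝔪 ≠ ⊤ → χ I = 0
  ray : ∀ α : 𝓞 F, α ≠ 0 → α - 1 ∈ 𝔪 → χ (Ideal.span {α}) = 1
  nontriv : ∃ I, χ I ≠ 0 ∧ χ I ≠ 1

/-- `L(s, χ) = ∑_{J ≠ 0} χ(J) N(J)^(-s)` for real `s`. -/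
noncomputable def Lc {F : Type} [Field F] [NumberField F] (χ : Ideal (𝓞 F) → ℂ) (s : ℝ) : ℂ :=
  ∑' J : {J : Ideal (𝓞 F) // J ≠ ⊥}, χ J.1 * (((Ideal.absNorm J.1 : ℝ) ^ (-s) : ℝ) : ℂ)

/-- **SP_LBD** (`L(s, χ)` is bounded). Let `F` be totally complex and `χ` a nontrivial ray class
character modulo `𝔪`. There is `C` with `‖L(s, χ)‖ ≤ C` for `s ∈ (1, 2]`.

PROOF. The proof of `RS.S_LBD` with complex values (apply `RS.S_UNF` and `RS.S_PAR` to the real and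
imaginary parts of `χ` and of `η_j`). Let the `c j` be given by `RS.S_REP`; `‖χ‖ ≤ 1` everywhere. For
a nonzero ideal `J` with `J c_j` principal, `J' = J c_j` is a nonzero principal ideal contained in
`c_j`, `J ↦ J'` is a bijection onto those, `χ(J) = χ(J') χ(c_j)^(-1)` and `N(J) = N(J')/N(c_j)`. So
`L(s, χ) = ∑_j χ(c_j)^(-1) N(c_j)^s ∑_{α ≠ 0} η_j(α) g_s(α)` with `η_j(α) = χ((α))` if `α ∈ c_j`,
`0` otherwise. Let `Λ = 𝔪 ∏_j c_j`. For nonzero `α, β` with `α - β ∈ 𝔪`, `χ((α)) = χ((β))`: if `α` is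
not coprime to `𝔪` neither is `β`; if `α` is coprime to `𝔪` choose `α' ≠ 0` with `α α' - 1 ∈ 𝔪`; then
`χ((α α')) = 1 = χ((β α'))` and `χ((α')) ≠ 0`. So `η_j` extends to a function periodic modulo `Λ`, and
`RS.S_PAR` gives `∑_{α ≠ 0} η_j(α) g_s(α) = κ_j X(s) + O(1)`, `X(s) = ∑_{α ∈ Λ, α ≠ 0} g_s(α)`,
`κ_j = (N Λ/(N c_j N 𝔪)) A`, `A = ∑_{ρ ∈ 𝓞/𝔪} η(ρ)`, `η(ρ) = χ((α))` for nonzero `α ∈ ρ` (`c_j → 𝓞/𝔪`
is surjective with kernel `c_j 𝔪 ⊇ Λ`). With `κ = A N Λ/N 𝔪`: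
`L(s, χ) = κ X(s) ∑_j χ(c_j)^(-1) N(c_j)^(s-1) + O(1)`.
If `A = 0` we are done. Otherwise `η` is trivial on `(𝓞/𝔪)ˣ` (a nontrivial character of a finite group
has sum 0): `χ((α)) = 1` for all `α ≠ 0` coprime to `𝔪`. Then `∑_j χ(c_j)^(-1) = 0`: let `I` be an
ideal with `χ(I) ≠ 0, 1`. For each `j` there is a unique `j' = π(j)` with `c_{j'}` in the class of
`I c_j`: choose `J` (one of the `c_i`) with `J I c_j` principal; `j'` is the index with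
`J c_{j'}` principal; `π` is a permutation, and `χ(J) χ(I) χ(c_j) = 1 = χ(J) χ(c_{j'})`, so
`χ(c_{π(j)})^(-1) = χ(I)^(-1) χ(c_j)^(-1)`; the sum is multiplied by `χ(I)^(-1) ≠ 1`. Finally
`0 ≤ X(s) ≤ C/(s-1)` (`RS.S_UNF` with `f = 1`, `RS.S_ZET`) and `|N(c_j)^(s-1) - 1| ≤ C (s-1)`. -/
def SP_LBD : Prop :=
  ∀ (F : Type) [Field F] [NumberField F] [IsTotallyComplex F] (𝔪 : Ideal (𝓞 F))
    (χ : Ideal (𝓞 F) → ℂ), IsCh 𝔪 χ →
  ∃ C : ℝ, ∀ s : ℝ, 1 < s → s ≤ 2 → ‖Lc χ s‖ ≤ C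

/-- **SP_EUL** (Euler product). There is `C`, depending only on `F`, such that for every completely
multiplicative `χ : ideals → ℂ` with `‖χ‖ ≤ 1`, `χ(⊤) = 1`, and `s > 1`: `L(s, χ) ≠ 0` and
`|log ‖L(s, χ)‖ - ∑_v Re χ(v) N(v)^(-s)| ≤ C`.

PROOF. As `RS.S_EUL`: `∑_{J ≠ 0} N(J)^(-s)` converges. Let `a_v = χ(v) N(v)^(-s)`, `|a_v| ≤ 1/2`. For
a finite set `S` of primes `∏_{v ∈ S} (1 - a_v)^(-1) = ∑_{J ∈ I(S)} χ(J) N(J)^(-s)` (`I(S)` the nonzero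
ideals all of whose prime factors are in `S`), and this tends to `L(s, χ)` when `S` increases. For
`|a| ≤ 1/2`, `|-log |1 - a| - Re a| ≤ |a|²` (real part of `-log(1 - a) - a = ∑_{i ≥ 2} a^i/i`). So
`|log |∏_{v ∈ S} (1 - a_v)^(-1)| - ∑_{v ∈ S} Re a_v| ≤ ∑_v N(v)^(-2) =: C`. As `∑ |a_v| < ∞`, the
logarithms of the absolute values of the finite products stay bounded, so the limit is not zero, and
the inequality passes to the limit. -/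
def SP_EUL : Prop :=
  ∀ (F : Type) [Field F] [NumberField F], ∃ C : ℝ, ∀ χ : Ideal (𝓞 F) → ℂ, χ ⊤ = 1 →
    (∀ I J, χ (I * J) = χ I * χ J) → (∀ I, ‖χ I‖ ≤ 1) → ∀ s : ℝ, 1 < s →
    Lc χ s ≠ 0 ∧
    |Real.log ‖Lc χ s‖ - ∑' v : HeightOneSpectrum (𝓞 F),
      (χ v.asIdeal).re * (Ideal.absNorm v.asIdeal : ℝ) ^ (-s)| ≤ C

/-- **SP_HLF.** Let `F` be totally complex, `ψ` a nontrivial additive ray class character with values
in `ZMod p` (`IsPsi` of Helper51). The primes `v` prime to `𝔪` with `ψ(v) ≠ 0` satisfy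
`∑ N(v)^(-s) ≥ (1 - 1/p) log(1/(s-1)) - C`.

PROOF. For `j = 1, ..., p-1` let `χ_j(I) = exp(2 π i j ψ(I)/p)` if `I ≠ 0` is coprime to `𝔪`, `0`
otherwise (`ψ(I)` lifted to `{0, ..., p-1}`); this is multiplicative (`I J` is coprime to `𝔪` iff `I`
and `J` are), and `IsCh 𝔪 χ_j` (nontrivial: `exp(2 π i j c/p) ≠ 1` for `c ≠ 0` in `ZMod p`). `χ_j(⊤) = 1`
because `ψ(⊤) = ψ(⊤ ⊤) = 2 ψ(⊤)`. By `SP_EUL` and `SP_LBD`,
`∑_v Re χ_j(v) N(v)^(-s) ≤ log ‖L(s, χ_j)‖ + C ≤ C'`. Sum over `j`: `∑_{j=1}^{p-1} Re χ_j(v)` is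
`p - 1` if `v` is coprime to `𝔪` and `ψ(v) = 0`, `-1` if `v` is coprime to `𝔪` and `ψ(v) ≠ 0`, `0` for
the finitely many others. With `A = ∑_{v ∤ 𝔪, ψ(v) = 0}`, `B = ∑_{v ∤ 𝔪, ψ(v) ≠ 0}` of `N(v)^(-s)`:
`(p - 1) A - B ≤ C''`, and `A + B ≥ log(1/(s-1)) - C'''` by `RS.S_PSM` (finitely many terms are
missing, each `≤ 1`). So `p B = (p-1)(A + B) - ((p-1) A - B) ≥ (p-1) log(1/(s-1)) - C`. -/
def SP_HLF : Prop :=
  ∀ (p : ℕ) [Fact p.Prime] (F : Type) [Field F] [NumberField F] [IsTotallyComplex F]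
    (𝔪 : Ideal (𝓞 F)) (ψ : Ideal (𝓞 F) → ZMod p), IsPsi p 𝔪 ψ →
  ∃ C : ℝ, ∀ s : ℝ, 1 < s → s ≤ 2 →
    (1 - 1 / (p : ℝ)) * Real.log (1 / (s - 1)) - C ≤
      pz {v : HeightOneSpectrum (𝓞 F) | v.asIdeal ⊔ 𝔪 = ⊤ ∧ ψ v.asIdeal ≠ 0} s

/-- **SP_SPL** (splitting in a Kummer extension). Let `F` contain a primitive `p`-th root of unity
`ε`, `E/F` of degree `p`, `E = F(r)`, `r^p = x ∈ F` (`x` not a `p`-th power in `F`), `v` a prime of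
`F` not above `p` with `LocPow p v x`. There are `p` distinct primes of `E` above `v`, of the same
norm as `v`.

PROOF. `X^p - x` is irreducible over `F` (`X_pow_sub_C_irreducible_of_prime`) and `E/F` is Galois; let
`σ` be the automorphism with `σ r = ε r`. Let `y ∈ F` with `ord_v(x y^p - 1) > 0`, so `y ≠ 0`; put
`z = r y`, `z^p - 1 = x y^p - 1`. Let `w` be a prime of `E` above `v`. `∏_{i<p} (z - ε^i) = z^p - 1`
has positive valuation at `w` and `z` has valuation `0`, so some `z - ε^i` has positive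
valuation; only one, because `ε^i - ε^j` is a unit at `v` for `i ≠ j` modulo `p`
(`∏_{0<i<p} (1 - ε^i) = p`). Let `i(w)` be this index modulo `p`. `σ(z - ε^i) = ε (z - ε^(i-1))`, so
`i(σ w) = i(w) - 1`. Hence the primes `w, σ w, ..., σ^(p-1) w` above `v` are distinct; as
`∑ e f = p` over the primes above `v`, they are all the primes above `v` and `e = f = 1`: their norm
is `N(v)`. -/
def SP_SPL : Prop :=
  ∀ (p : ℕ) [Fact p.Prime] (F E : Type) [Field F] [NumberField F] [Field E] [NumberField E]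
    [Algebra F E] (ε : F) (x : F) (r : E), IsPrimitiveRoot ε p → finrank F E = p →
    r ^ p = algebraMap F E x → (¬ ∃ y : F, y ^ p = x) →
  ∀ v : HeightOneSpectrum (𝓞 F), v.valuation F (p : F) = 1 → LocPow p v x →
    ∃ w : Fin p → HeightOneSpectrum (𝓞 E), Function.Injective w ∧
      ∀ i, (w i).asIdeal.comap (algebraMap (𝓞 F) (𝓞 E)) = v.asIdeal ∧
        Ideal.absNorm (w i).asIdeal = Ideal.absNorm v.asIdeal

/-- **SP_KUM.** Let `F` contain a primitive `p`-th root of unity and let `x ∈ F`, `x ≠ 0`, be not a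
`p`-th power. The primes `v ∤ p` with `LocPow p v x` satisfy
`∑ N(v)^(-s) ≤ (1/p) log(1/(s-1)) + C`.

PROOF. Let `E = AdjoinRoot (X^p - x)`, a field of degree `p` over `F`
(`X_pow_sub_C_irreducible_of_prime`). By `SP_SPL` every `v` of the set has `p` primes of `E` above it
with the same norm; those above different `v` are different. So
`p ∑_v N(v)^(-s) ≤ ∑_w N(w)^(-s) ≤ log(1/(s-1)) + C` by `RS.S_PSM` for `E`. -/
def SP_KUM : Prop :=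
  ∀ (p : ℕ) [Fact p.Prime] (F : Type) [Field F] [NumberField F] (ε x : F), IsPrimitiveRoot ε p →
    x ≠ 0 → (¬ ∃ y : F, y ^ p = x) →
  ∃ C : ℝ, ∀ s : ℝ, 1 < s → s ≤ 2 →
    pz {v : HeightOneSpectrum (𝓞 F) | v.valuation F (p : F) = 1 ∧ LocPow p v x} s ≤
      1 / (p : ℝ) * Real.log (1 / (s - 1)) + C

/-- **SP_QEX** (choice of the prime `𝔮`). Let `M/K` be finite Galois, `M` totally complex, `ψ` a
nontrivial additive ray class character of `M` with values in `ZMod p`, `δ ∈ Gal(M/K)` and `x₀ ∈ Mˣ`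
not a `p`-th power; if `p = 2` suppose also that `x₀ δ(x₀)` is not a square. For every finite set `Z`
of primes there is `𝔮 ∉ Z` with trivial decomposition group, prime to `𝔪`, with `ψ(𝔮) ≠ 0`,
`p ∣ N(𝔮) - 1`, not above `p`, and such that `x₀` or `δ(x₀)` is not locally a `p`-th power at `𝔮`.

PROOF. Let `E = M(ε)`, `ε` a primitive `p`-th root of unity (`CyclotomicField p M` or a splitting
field); `[E : M]` divides `p - 1`, so it is prime to `p`; `E/M` is Galois and `E` is totally complex.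
For nonzero ideals `I` of `𝓞_E` let `ψ_E(I) = ψ(N_{E/M} I)` (`Ideal.relNorm`). CLAIM:
`IsPsi p (𝔪 𝓞_E) ψ_E`. `N(I J) = N(I) N(J)`; `I` coprime to `𝔪 𝓞_E` implies `N(I)` coprime to `𝔪`; if
`α ≠ 0`, `α - 1 ∈ 𝔪 𝓞_E` then `N_{E/M}(α) = ∏_g g(α)` is congruent to 1 modulo `𝔪 𝓞_E` (this ideal is
stable under `Gal(E/M)`), so `N_{E/M}(α) - 1 ∈ 𝔪 𝓞_E ∩ 𝓞_M = 𝔪`, and `N((α)) = (N(α))`. If `I` is an
ideal of `𝓞_M` coprime to `𝔪` with `ψ(I) ≠ 0`, then `N(I 𝓞_E) = I^[E:M]` and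
`ψ_E(I 𝓞_E) = [E:M] ψ(I) ≠ 0`.
By `SP_HLF` on `E`, the primes `𝔔` prime to `𝔪` with `ψ_E(𝔔) ≠ 0` satisfy
`∑ ≥ (1 - 1/p) ℓ - C`, `ℓ = log(1/(s-1))`.
BAD primes: if `p` is odd, `x₀` is not a `p`-th power in `E` (if `x₀ = y^p` then
`x₀^[E:M] = N(y)^p`, and `[E:M]` is prime to `p`, so `x₀` would be a `p`-th power in `M`), so by
`SP_KUM` the `𝔔 ∤ p` with `LocPow p 𝔔 x₀` satisfy `∑ ≤ (1/p) ℓ + C`, and `1/p < 1 - 1/p`. If `p = 2`,
`E = M` up to isomorphism (`ε = -1`): work in `M` itself, `ψ_E = ψ`; by `RS.S_KUM` the `𝔔 ∤ 2` at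
which `x₀` and `δ x₀` are local squares satisfy `∑ ≤ (1/4) ℓ + C` (`x₀`, `δ x₀`, `x₀ δ x₀` are not
squares), and `1/4 < 1/2`. The primes whose norm is not prime contribute `≤ C` (`RS.S_DG1`), finite
sets too. Let `R` be the finite set of the primes of `E` above `p`, above a prime of `Z`, dividing
`𝔪`, or dividing one of the `g θ_g - θ_g` (`g ∈ Gal(M/K)`, `g ≠ 1`, `θ_g ∈ 𝓞_M` with
`g θ_g ≠ θ_g`). So there is a prime `𝔔 ∉ R` of `E` with `N(𝔔) = ℓ'` prime, `ψ_E(𝔔) ≠ 0`, which is not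
bad. Let `𝔮 = 𝔔 ∩ 𝓞_M`. `N(𝔔)` is a power of `N(𝔮)`, so `N(𝔮) = ℓ'` and the residue degree is 1,
`N_{E/M}(𝔔) = 𝔮`, `ψ(𝔮) ≠ 0`. The field `𝓞_E/𝔔` with `ℓ'` elements contains an element of order `p`
(the image of `ε`; `1 - ε^i` is a unit at `𝔔 ∤ p`), so `p ∣ ℓ' - 1`. `FreeP K 𝔮`: if `g ≠ 1` preserves
the valuation of `𝔮` then `g` acts trivially on `𝓞_M/𝔮 = F_{ℓ'}`, so `g θ_g - θ_g ∈ 𝔮 ⊆ 𝔔`, a
contradiction. `LocPow p 𝔮 x` implies `LocPow p 𝔔 x`, so at least one of `x₀`, `δ x₀` is not `LocPow`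
at `𝔮`. -/
def SP_QEX : Prop :=
  ∀ (p : ℕ) [Fact p.Prime] (K M : Type) [Field K] [NumberField K] [Field M] [NumberField M]
    [IsTotallyComplex M] [Algebra K M] [IsGalois K M] (𝔪 : Ideal (𝓞 M))
    (ψ : Ideal (𝓞 M) → ZMod p), IsPsi p 𝔪 ψ →
  ∀ (δ : M ≃ₐ[K] M) (x₀ : Mˣ), ¬ Pw p x₀ →
    (p = 2 → ¬ Pw 2 (x₀ * Units.map ((δ : M →+* M) : M →* M) x₀)) →
  ∀ Z : Set (HeightOneSpectrum (𝓞 M)), Z.Finite →
  ∃ 𝔮 : HeightOneSpectrum (𝓞 M), 𝔮 ∉ Z ∧ FreeP K 𝔮 ∧ 𝔮.asIdeal ⊔ 𝔪 = ⊤ ∧ ψ 𝔮.asIdeal ≠ 0 ∧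
    p ∣ Ideal.absNorm 𝔮.asIdeal - 1 ∧ 𝔮.valuation M (p : M) = 1 ∧
    (¬ LocPow p 𝔮 (x₀ : M) ∨ ¬ LocPow p 𝔮 (δ (x₀ : M)))

end Pool.Agent.Helper38.RSP
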